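import Pool.Agent.Helper57.IA.St

/-!
# Project IA, part P (MP_953b28_co), module SB2: random subsets
-/

set_option autoImplicit false

namespace Pool.Agent.Helper78.IA57

open Finset Pool.Agent.Helper93.IA Pool.Agent.Helper57.IA

private theorem inter_sub {V : Type} [DecidableEq V] (F A B : Finset V) (h : A ⊆ B) :
    (F ∩ A).card ≤ (F ∩ B).card ∧ (F ∩ B).card + A.card ≤ (F ∩ A).card + B.card := by
  refine ⟨Finset.card_le_card (Finset.inter_subset_inter_left h), ?_⟩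
  have h1 := Finset.card_union_add_card_inter (F ∩ B) A
  have h2 : (F ∩ B ∪ A).card ≤ B.card :=
    Finset.card_le_card (Finset.union_subset Finset.inter_subset_right h)
  have h3 : F ∩ B ∩ A = F ∩ A := by
    rw [Finset.inter_assoc, Finset.inter_eq_right.2 h]
  rw [h3] at h1
  omega

private theorem pick {V : Type} [Fintype V] [DecidableEq V] (U0 : Finset V) (m : ℕ)
    (hm : m ≤ Fintype.card V) :
    ∃ U : Finset V, U.card = m ∧ ∀ F : Finset V,
      |((F ∩ U).card : ℝ) - (F ∩ U0).card| ≤ |(U0.card : ℝ) - m| := by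
  rcases le_total m U0.card with h | h
  · obtain ⟨U, hU, hc⟩ := Finset.exists_subset_card_eq h
    refine ⟨U, hc, fun F => ?_⟩
    obtain ⟨h1, h2⟩ := inter_sub F U U0 hU
    rw [hc] at h2
    have h1' : ((F ∩ U).card : ℝ) ≤ (F ∩ U0).card := by exact_mod_cast h1
    have h2' : ((F ∩ U0).card : ℝ) + m ≤ (F ∩ U).card + U0.card := by exact_mod_cast h2
    have h3 : (U0.card : ℝ) - m ≤ |(U0.card : ℝ) - m| := le_abs_self _
    rw [abs_le]
    constructor <;> linarith [abs_nonneg ((U0.card : ℝ) - m)]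
  · obtain ⟨U, hU, hc⟩ := Finset.exists_superset_card_eq h hm
    refine ⟨U, hc, fun F => ?_⟩
    obtain ⟨h1, h2⟩ := inter_sub F U0 U hU
    rw [hc] at h2
    have h1' : ((F ∩ U0).card : ℝ) ≤ (F ∩ U).card := by exact_mod_cast h1
    have h2' : ((F ∩ U).card : ℝ) + U0.card ≤ (F ∩ U0).card + m := by exact_mod_cast h2
    have h3 : -((U0.card : ℝ) - m) ≤ |(U0.card : ℝ) - m| := neg_le_abs _
    rw [abs_le]
    constructor <;> linarith [abs_nonneg ((U0.card : ℝ) - m)]

private theorem mean_eq {V : Type} [DecidableEq V] (ξ : ℝ) (S : Finset V) :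
    mean (fun _ : V => ξ) id id S = ξ * S.card := by
  unfold mean
  rw [Finset.sum_congr rfl (g := fun _ => ξ) (fun z _ => if_pos rfl), Finset.sum_const,
    nsmul_eq_mul, mul_comm]

private theorem cnt_eq {V : Type} [Fintype V] [DecidableEq V] (σ : V → Bool) (S : Finset V) :
    cnt id id S σ = ((S ∩ univ.filter fun v => σ v = true).card : ℝ) := by
  unfold cnt
  congr 2
  ext v
  simp only [mem_filter, mem_inter, mem_univ, true_and, id_eq, and_self]

/-- The random choice. -/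
private theorem choose_set (hBRN : StBRN) (hCNT : StCNT) {V ι : Type} [Fintype V] [DecidableEq V]
    [Fintype ι] (n : ℕ) (ξ l t : ℝ) (hξ : 0 < ξ) (hξ' : ξ ≤ 1 / 2) (hl : 0 ≤ l) (hl1 : l ≤ 1)
    (hV : Fintype.card V = n) (hι : Fintype.card ι ≤ 4 * n)
    (hlt : (4 * (n : ℝ) + 1) * (2 * Real.exp (-l * t + 2 * l ^ 2 * n)) < 1) (F : ι → Finset V) :
    ∃ U0 : Finset V, |(U0.card : ℝ) - ξ * n| ≤ t ∧
      ∀ j, |((F j ∩ U0).card : ℝ) - ξ * (F j).card| ≤ t := by
  have hp : ∀ _ : V, 0 ≤ ξ ∧ ξ ≤ 1 := fun _ => ⟨hξ.le, by linarith⟩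
  have hE : ∀ S : Finset V, Pr (wB fun _ : V => ξ)
      (fun σ => t < |cnt id id S σ - mean (fun _ => ξ) id id S|) ≤
      2 * Real.exp (-l * t + 2 * l ^ 2 * n) := by
    intro S
    refine le_trans (hCNT hBRN V V (fun _ => ξ) id id S l t hp Function.injective_id
      Function.injective_id (Or.inl fun _ => rfl) hl hl1) ?_
    have h1 : (S.card : ℝ) ≤ n := by
      rw [← hV]
      exact_mod_cast Finset.card_le_univ S
    have h2 : l ^ 2 * (S.card : ℝ) ≤ l ^ 2 * n := mul_le_mul_of_nonneg_left h1 (sq_nonneg l)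
    have h3 : Real.exp (-l * t + 2 * l ^ 2 * S.card) ≤ Real.exp (-l * t + 2 * l ^ 2 * n) :=
      Real.exp_le_exp.2 (by linarith)
    linarith
  have h0 : Pr (wB fun _ : V => ξ) (fun σ => ∃ j : Option ι,
      t < |cnt id id (j.elim univ F) σ - mean (fun _ => ξ) id id (j.elim univ F)|) < 1 := by
    refine lt_of_le_of_lt (pr_exists_le (wB fun _ : V => ξ) (wB_nonneg _ hp)
      (fun j : Option ι => fun σ => t < |cnt id id (j.elim univ F) σ -
        mean (fun _ => ξ) id id (j.elim univ F)|)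
      (2 * Real.exp (-l * t + 2 * l ^ 2 * n)) fun j => hE _) ?_
    refine lt_of_le_of_lt (mul_le_mul_of_nonneg_right ?_ (by positivity)) hlt
    rw [Fintype.card_option]
    push_cast
    have h4 : (Fintype.card ι : ℝ) ≤ 4 * n := by exact_mod_cast hι
    linarith
  obtain ⟨σ, hσ⟩ := exists_not (wB fun _ : V => ξ) (wB_nonneg _ hp) (wB_sum _) _ h0
  push Not at hσ
  refine ⟨univ.filter fun v => σ v = true, ?_, fun j => ?_⟩
  · have h5 := hσ none
    simp only [Option.elim] at h5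
    rw [mean_eq, cnt_eq, Finset.univ_inter, Finset.card_univ, hV] at h5
    exact h5
  · have h5 := hσ (some j)
    simp only [Option.elim] at h5
    rw [mean_eq, cnt_eq] at h5
    exact h5

private theorem final_bound (a b c u n m ξ t r : ℝ) (hn : 0 < n) (hc0 : 0 ≤ c) (hcn : c ≤ n)
    (h1 : |u - ξ * n| ≤ t) (h2 : |b - ξ * c| ≤ t) (h3 : |a - b| ≤ |u - m|)
    (h4 : m ≤ ξ * n) (h5 : ξ * n < m + 1) (h6 : 2 * t + 2 ≤ r) :
    |a - c * m / n| ≤ r := by
  have h7 : |u - m| ≤ t + 1 := by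
    rw [abs_le] at h1 ⊢
    constructor <;> linarith [h1.1, h1.2]
  have h8 : |ξ * c - c * m / n| ≤ 1 := by
    have h9 : ξ * c - c * m / n = (c / n) * (ξ * n - m) := by
      field_simp
    have h10 : 0 ≤ c / n := div_nonneg hc0 hn.le
    have h11 : c / n ≤ 1 := (div_le_one hn).2 hcn
    rw [h9, abs_of_nonneg (mul_nonneg h10 (by linarith))]
    calc (c / n) * (ξ * n - m) ≤ 1 * (ξ * n - m) :=
          mul_le_mul_of_nonneg_right h11 (by linarith)
      _ ≤ 1 := by linarith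
  have h3' := h3.trans h7
  rw [abs_le] at h2 h3' h8 ⊢
  constructor <;> linarith [h2.1, h2.2, h3'.1, h3'.2, h8.1, h8.2]

theorem hSB2 : StSB2 := by
  intro hBRN hCNT hSB1 ξ hξ hξ'
  obtain ⟨n0, hn0⟩ := hSB1 ξ hξ hξ'
  refine ⟨n0, ?_⟩
  intro V ι _ _ _ n hn hV hι F
  obtain ⟨l, t, hnpos, hl, hl1, ht, h2t, hlt⟩ := hn0 n hn
  obtain ⟨U0, hU0, hF⟩ := choose_set hBRN hCNT n ξ l t hξ hξ' hl hl1 hV hι hlt F
  have hnR : (0 : ℝ) < n := by exact_mod_cast hnpos
  have hm : ⌊ξ * n⌋₊ ≤ Fintype.card V := by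
    rw [hV]
    refine Nat.floor_le_of_le ?_
    nlinarith
  obtain ⟨U, hU, hpick⟩ := pick U0 ⌊ξ * n⌋₊ hm
  refine ⟨U, hU, fun j => ?_⟩
  rw [hU]
  refine final_bound _ ((F j ∩ U0).card : ℝ) _ (U0.card : ℝ) _ _ ξ t _ hnR (Nat.cast_nonneg _) ?_
    hU0 (hF j) (hpick (F j)) (Nat.floor_le (by positivity)) (Nat.lt_floor_add_one _) h2t
  rw [← hV]
  exact_mod_cast Finset.card_le_univ (F j)

end Pool.Agent.Helper78.IA57
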